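import Pool.Agent.MWGR.StmtsF

/-!
# Row JES of block MWGR: the edges `es g` are join prime
-/

set_option autoImplicit false

namespace Pool.Agent.MWGR.H33

open Pool.Agent.Helper14_MV Pool.Agent.Helper2_MV Pool.Agent.MVO Pool.Agent.MWL Pool.Agent.MWS
  Pool.Agent.MWH

theorem asm_one (B : ℕ → List ℕ) : asm 1 B = B 0 ++ 2 :: B 1 := rfl

theorem deg_one (a : ℕ → ℕ) : deg 1 a = a 0 + a 1 := by
  simp [deg, Finset.sum_range_succ]

theorem modeq_of_dvd {M n a b : ℕ} (hn : 1 ≤ n) (hM : M ∣ n) (h : M ∣ a + (n - 1) * b) :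
    a ≡ b [MOD M] := by
  obtain ⟨m, rfl⟩ : ∃ m, n = m + 1 := ⟨n - 1, by omega⟩
  have e : m + 1 - 1 = m := by omega
  rw [e] at h
  have h1 : a + (m + 1) * b ≡ a [MOD M] := by
    have h2 : (m + 1) * b ≡ 0 [MOD M] :=
      (Nat.modEq_zero_iff_dvd).2 (Dvd.dvd.mul_right hM b)
    exact (Nat.ModEq.add_left a h2)
  have h3 : a + (m + 1) * b ≡ b [MOD M] := by
    have h4 : a + m * b ≡ 0 [MOD M] := (Nat.modEq_zero_iff_dvd).2 h
    have h5 := Nat.ModEq.add_right b h4
    have e1 : a + (m + 1) * b = a + m * b + b := by ring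
    rw [e1]
    simpa using h5
  exact h1.symm.trans h3

/-- the permutation of the letters -/
def pi23 : Equiv.Perm ℕ := Equiv.swap 2 3

theorem pi0 : pi23 0 = 0 := by decide
theorem pi1 : pi23 1 = 1 := by decide
theorem pi2 : pi23 2 = 3 := by decide
theorem pi3 : pi23 3 = 2 := by decide

/-- a list with the letters `1`, `3` without the letter `3` -/
theorem filt13 : ∀ L : List ℕ, (∀ c ∈ L, c = 1 ∨ c = 3) →
    L.filter (fun c => decide (c ≠ 3)) = Y (L.count 1)
  | [], _ => rfl
  | a :: L, h => by
    have ih := filt13 L (fun c hc => h c (List.mem_cons_of_mem _ hc))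
    rcases h a (by simp) with rfl | rfl
    · rw [List.filter_cons_of_pos (by decide), ih, List.count_cons_self]
      rfl
    · rw [List.filter_cons_of_neg (by decide), ih, List.count_cons_of_ne (by decide)]

/-- delete `1`, rename `3` -/
def del1 (c : ℕ) : List ℕ := if c = 1 then [] else if c = 3 then [1] else [c]

theorem sub13 : ∀ L : List ℕ, (∀ c ∈ L, c = 1 ∨ c = 3) →
    L.flatMap del1 = Y (L.count 3)
  | [], _ => rfl
  | a :: L, h => by
    have ih := sub13 L (fun c hc => h c (List.mem_cons_of_mem _ hc))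
    rcases h a (by simp) with rfl | rfl
    · rw [List.flatMap_cons, ih, List.count_cons_of_ne (by decide)]
      rfl
    · rw [List.flatMap_cons, ih, List.count_cons_self]
      rfl

theorem subX (k : ℕ) : (X k).flatMap del1 = X k := by
  induction k with
  | zero => rfl
  | succ k ih =>
    show (0 :: X k).flatMap del1 = 0 :: X k
    rw [List.flatMap_cons, ih]
    rfl

theorem filtX (k : ℕ) : (X k).filter (fun c => decide (c ≠ 3)) = X k := by
  rw [List.filter_eq_self]
  intro c hc
  have : c = 0 := List.eq_of_mem_replicate hc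
  subst this
  decide

theorem XX (i j : ℕ) : X i ++ X j = X (i + j) := List.replicate_append_replicate

theorem jes (hJ : JpigStmt) (hBGB : BgbStmt) (hMNB : MnbStmt) (hRNM : RnmStmt) (hSTW : StwStmt)
    (hFRM : FrmStmt) (hEAL : EalStmt) (hDAL : DalStmt) (hE0T : E0tStmt) (hAEX : AexStmt)
    (hNTD : NtdStmt) (hNTS : NtsStmt) : JesStmt := by
  intro n β hR g hg
  have hβ : BG n (RR β) := hR.toBG
  have hn := hβ.pos
  obtain ⟨hbas, -⟩ := hBGB n β hβ
  rcases hAEX n β hR [3, 1, 2] (Or.inl rfl) g hg with hall | ⟨M, hMn, hM⟩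
  · intro ρ σ hρ _ _ _ _
    exact Or.inl (hall ρ hρ)
  -- the two words
  have key : ∀ B0 B1 : ℕ → List ℕ, B0 0 = X n ++ 1 :: (X (n + g) ++ 3 :: X n) → B0 1 = [1, 3] →
      B1 0 = X (n + g) ++ 3 :: (X (n + (n - 1) * g) ++ 1 :: X (n + g)) →
      B1 1 = [1, 3] → JPp β (asm 1 B0, asm 1 B1) := by
    intro B0 B1 h00 h01 h10 h11
    have hc0 : ∀ j ≤ 1, ∀ c ∈ B0 j, c = 0 ∨ c = 1 ∨ c = 3 := by
      intro j hj c hc
      obtain rfl | rfl : j = 0 ∨ j = 1 := by omega
      · rw [h00] at hc
        simp only [List.mem_append, List.mem_cons, List.mem_replicate] at hc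
        tauto
      · rw [h01] at hc
        simp at hc
        tauto
    have hc1 : ∀ j ≤ 1, ∀ c ∈ B1 j, c = 0 ∨ c = 1 ∨ c = 3 := by
      intro j hj c hc
      obtain rfl | rfl : j = 0 ∨ j = 1 := by omega
      · rw [h10] at hc
        simp only [List.mem_append, List.mem_cons, List.mem_replicate] at hc
        tauto
      · rw [h11] at hc
        simp at hc
        tauto
    have hns : ∀ c, c = 0 ∨ c = 1 ∨ c = 3 → NS 1 c := by
      rintro c (rfl | rfl | rfl) h
      · omega
      · omega
      · omega
    have ed : Ec n g [3, 1, 2] = Ec n g [3, 1, 2] := rfl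
    refine hJ β hbas.cap 1 B0 B1
      (fun B => ∃ i j l, 2 ≤ i + j + l ∧ B 0 = X i ++ 1 :: (X j ++ 3 :: X l) ∧
        (∀ c ∈ B 1, c = 1 ∨ c = 3) ∧ 1 ∈ B 1 ∧ 3 ∈ B 1 ∧ j ≡ g [MOD M]) ?_ ?_ ?_ ?_ ?_ ?_
    · refine ⟨fun j hj c hc => hns c (hc0 j hj c hc), fun j hj c hc => ?_⟩
      rw [deg_one]
      show 2 ≤ (B0 0).count c + (B0 1).count c
      rw [h00, h01]
      rcases hc0 j hj c hc with rfl | rfl | rfl
      · simp [List.count_cons, List.count_append, List.count_replicate]
        omega
      · simp [List.count_cons, List.count_append, List.count_replicate]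
      · simp [List.count_cons, List.count_append, List.count_replicate]
    · refine ⟨fun j hj c hc => hns c (hc1 j hj c hc), fun j hj c hc => ?_⟩
      rw [deg_one]
      show 2 ≤ (B1 0).count c + (B1 1).count c
      rw [h10, h11]
      rcases hc1 j hj c hc with rfl | rfl | rfl
      · simp [List.count_cons, List.count_append, List.count_replicate]
        omega
      · simp [List.count_cons, List.count_append, List.count_replicate]
      · simp [List.count_cons, List.count_append, List.count_replicate]
    · refine ⟨n, n + g, n, by omega, h00, ?_, by rw [h01]; simp, by rw [h01]; simp, ?_⟩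
      · intro c hc
        rw [h01] at hc
        simpa using hc
      · have h2 : n ≡ 0 [MOD M] := (Nat.modEq_zero_iff_dvd).2 hMn
        simpa using Nat.ModEq.add_right g h2
    · rintro ⟨i, j, l, -, h, -⟩
      rw [h10] at h
      have h2 := congrArg (List.filter (fun c => decide (c ≠ 0))) h
      have fX : ∀ k, (X k).filter (fun c => decide (c ≠ 0)) = [] := by
        intro k
        rw [List.filter_eq_nil_iff]
        intro c hc
        have : c = 0 := List.eq_of_mem_replicate hc
        subst this
        decide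
      simp only [List.filter_append, List.filter_cons, fX] at h2
      simp at h2
    · rintro B B' h ⟨i, j, l, a1, a2, a3, a4, a5, a6⟩
      have e0 := h 0 (by omega)
      have e1 := h 1 (by omega)
      exact ⟨i, j, l, a1, by rw [← e0]; exact a2, by rw [← e1]; exact a3, by rw [← e1]; exact a4,
        by rw [← e1]; exact a5, a6⟩
    · rintro θ hθ hnc hne B B' hB hB' hs hs' hr ⟨i, j, l, hijl, e0, hb1, m1, m3, hj⟩
      have hG := (hMNB n β θ hθ).1 hβ
      have hec : ¬ Ec n g [3, 1, 2] (RR θ) := by
        intro h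
        apply hne
        have h2 := ((hRNM pi23 _ _).1 θ).1 h
        rw [asm_one, asm_one, h00, h01, h10, h11]
        simpa [pi0, pi1, pi2, pi3] using h2
      have hE : ¬ Has n (FC.ofFIC θ) Bit.E := fun h =>
        hec (hE0T n θ hG (hEAL n θ hG h).2.2.2 g).1
      have hD : ¬ Has n (FC.ofFIC θ) (Bit.D 0) := fun h =>
        hec (hE0T n θ hG (hDAL n θ hG h).2.2.2 g).1
      obtain ⟨hMd, hMc⟩ := hM θ hθ hec
      have hl : ∀ j ≤ 1, ∀ c ∈ B' j, c = 0 ∨ c = 1 ∨ c = 3 := by
        intro j hj c hc
        obtain ⟨i, hi, hc'⟩ := hs' c ⟨j, hj, hc⟩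
        exact hc0 i hi c hc'
      have n0 : (B 0).count 0 = i + j + l := by
        rw [e0]
        simp [List.count_cons, List.count_append, List.count_replicate]
        omega
      have n1 : (B 0).count 1 = 1 := by
        rw [e0]
        simp [List.count_cons, List.count_append, List.count_replicate]
      have n3 : (B 0).count 3 = 1 := by
        rw [e0]
        simp [List.count_cons, List.count_append, List.count_replicate]
      have n01 : (B 1).count 0 = 0 := by
        rw [List.count_eq_zero]
        intro h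
        rcases hb1 0 h with h | h <;> omega
      obtain ⟨d1, s1⟩ := hSTW n β θ hbas hθ hnc hD hE 1 B B' hB hB' hr 1
        (hns 1 (Or.inr (Or.inl rfl))) ⟨1, by omega, m1⟩
      obtain ⟨d3, s3⟩ := hSTW n β θ hbas hθ hnc hD hE 1 B B' hB hB' hr 3
        (hns 3 (Or.inr (Or.inr rfl))) ⟨1, by omega, m3⟩
      obtain ⟨d0, s0⟩ := hSTW n β θ hbas hθ hnc hD hE 1 B B' hB hB' hr 0
        (hns 0 (Or.inl rfl)) ⟨0, by omega, List.count_pos_iff.1 (by omega)⟩
      have c10 : (B' 0).count 1 = 1 :=
        ((s1 0 (by omega)).1 (fun p hp => absurd hp (Nat.not_lt_zero p))).1.1 n1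
      have c30 : (B' 0).count 3 = 1 :=
        ((s3 0 (by omega)).1 (fun p hp => absurd hp (Nat.not_lt_zero p))).1.1 n3
      have c01 : (B' 1).count 0 = 0 :=
        ((s0 1 (le_refl _)).2.1 (fun q hq1 hq2 => by omega)).1.1 n01
      have d1' : 2 ≤ (B' 0).count 1 + (B' 1).count 1 := by
        rw [deg_one] at d1
        exact d1
      have d3' : 2 ≤ (B' 0).count 3 + (B' 1).count 3 := by
        rw [deg_one] at d3
        exact d3
      have d0' : 2 ≤ (B' 0).count 0 + (B' 1).count 0 := by
        rw [deg_one] at d0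
        exact d0
      have m1' : 1 ∈ B' 1 := List.count_pos_iff.1 (by omega)
      have m3' : 3 ∈ B' 1 := List.count_pos_iff.1 (by omega)
      have hb1' : ∀ c ∈ B' 1, c = 1 ∨ c = 3 := by
        intro c hc
        rcases hl 1 (le_refl _) c hc with rfl | h | h
        · exact absurd hc (List.count_eq_zero.1 c01)
        · exact Or.inl h
        · exact Or.inr h
      obtain ⟨i', j', l', hc0', hform⟩ := hFRM.2 (B' 0) 3 (by omega) (by omega)
        (hl 0 (by omega)) c10 c30
      rw [asm_one, asm_one] at hr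
      rcases hform with e0' | e0'
      · refine ⟨i', j', l', by omega, e0', hb1', m1', m3', ?_⟩
        have k1 : M ∣ i + (n - 1) * i' := by
          have h1 := hr.filter (fun c => decide (c ≠ 3))
          rw [e0, e0'] at h1
          simp only [List.filter_append, List.filter_cons, filtX, filt13 _ hb1,
            filt13 _ hb1'] at h1
          refine hMd _ (hNTD n θ hG i (j + l) i' (j' + l') _ _
            (List.count_pos_iff.2 m1) (List.count_pos_iff.2 m1') ?_)
          rw [← XX, ← XX]
          simpa using h1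
        have k2 : M ∣ (i + j) + (n - 1) * (i' + j') := by
          have h1 := hr.sub del1
          rw [e0, e0'] at h1
          have q1 : del1 1 = [] := rfl
          have q2 : del1 2 = [2] := rfl
          have q3 : del1 3 = [1] := rfl
          simp only [List.flatMap_append, List.flatMap_cons, subX, sub13 _ hb1,
            sub13 _ hb1', q1, q2, q3, List.nil_append, List.cons_append, List.append_assoc] at h1
          refine hMd _ (hNTD n θ hG (i + j) l (i' + j') l' _ _
            (List.count_pos_iff.2 m3) (List.count_pos_iff.2 m3') ?_)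
          rw [← XX, ← XX, List.append_assoc, List.append_assoc]
          exact h1
        have k3 := modeq_of_dvd hn hMn k1
        have k4 := modeq_of_dvd hn hMn k2
        have k5 : j ≡ j' [MOD M] := Nat.ModEq.add_left_cancel k3 k4
        exact k5.symm.trans hj
      · exfalso
        have h1 := ((hRNM pi23 _ _).1 θ).1 hr
        rw [e0, e0'] at h1
        have memL : ∀ L : List ℕ, (∀ c ∈ L, c = 1 ∨ c = 3) →
            ∀ c ∈ L.map pi23, c = 1 ∨ c = 2 := by
          intro L hL c hc
          obtain ⟨d, hd, rfl⟩ := List.mem_map.1 hc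
          rcases hL d hd with rfl | rfl
          · exact Or.inl pi1
          · exact Or.inr pi3
        have a1 : ∀ L : List ℕ, 1 ∈ L → 1 ∈ L.map pi23 := fun L h =>
          List.mem_map.2 ⟨1, h, pi1⟩
        have a2 : ∀ L : List ℕ, 3 ∈ L → 2 ∈ L.map pi23 := fun L h =>
          List.mem_map.2 ⟨3, h, pi3⟩
        refine hMc j hj (hNTS n θ hG ((B 1).map pi23) ((B' 1).map pi23) i j l i' j' l'
          (a1 _ m1) (a2 _ m3) (a1 _ m1') (a2 _ m3') (memL _ hb1) (memL _ hb1') ?_)
        simpa [pi0, pi1, pi2, pi3] using h1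
  rw [(hRNM pi23 _ _).2 β]
  have h := key (fun j => if j = 0 then X n ++ 1 :: (X (n + g) ++ 3 :: X n) else [1, 3])
    (fun j => if j = 0 then X (n + g) ++ 3 :: (X (n + (n - 1) * g) ++ 1 :: X (n + g)) else [1, 3])
    (by simp) (by simp) (by simp) (by simp)
  have e : (asm 1 (fun j => if j = 0 then X n ++ 1 :: (X (n + g) ++ 3 :: X n) else [1, 3]),
      asm 1 (fun j => if j = 0 then X (n + g) ++ 3 :: (X (n + (n - 1) * g) ++ 1 :: X (n + g))
        else [1, 3])) = (((Ed.es g).l n).map pi23, ((Ed.es g).r n).map pi23) := by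
    rw [asm_one, asm_one]
    simp [Ed.l, Ed.r, pi0, pi1, pi2, pi3]
  rw [← e]
  exact h

end Pool.Agent.MWGR.H33
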